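import Pool.Agent.H.MP_ad013a_pr.h63r.Q2.T
import Pool.Agent.H.MP_ad013a_pr.h63w.VLoop

namespace Pool.Agent.ad013a.R2

theorem c512 : lp7 (fun s => chk (ent L512 s)) 0 = true := by decide +kernel
theorem p512 : PrL chk L512 := leafL c512

theorem c513 : lp7 (fun s => chk (ent L513 s)) 0 = true := by decide +kernel
theorem p513 : PrL chk L513 := leafL c513

theorem c514 : lp7 (fun s => chk (ent L514 s)) 0 = true := by decide +kernel
theorem p514 : PrL chk L514 := leafL c514

theorem c515 : lp7 (fun s => chk (ent L515 s)) 0 = true := by decide +kernel
theorem p515 : PrL chk L515 := leafL c515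

theorem c516 : lp7 (fun s => chk (ent L516 s)) 0 = true := by decide +kernel
theorem p516 : PrL chk L516 := leafL c516

theorem c517 : lp7 (fun s => chk (ent L517 s)) 0 = true := by decide +kernel
theorem p517 : PrL chk L517 := leafL c517

theorem c518 : lp7 (fun s => chk (ent L518 s)) 0 = true := by decide +kernel
theorem p518 : PrL chk L518 := leafL c518

theorem c519 : lp7 (fun s => chk (ent L519 s)) 0 = true := by decide +kernel
theorem p519 : PrL chk L519 := leafL c519

theorem c520 : lp7 (fun s => chk (ent L520 s)) 0 = true := by decide +kernel
theorem p520 : PrL chk L520 := leafL c520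

theorem c521 : lp7 (fun s => chk (ent L521 s)) 0 = true := by decide +kernel
theorem p521 : PrL chk L521 := leafL c521

theorem c522 : lp7 (fun s => chk (ent L522 s)) 0 = true := by decide +kernel
theorem p522 : PrL chk L522 := leafL c522

theorem c523 : lp7 (fun s => chk (ent L523 s)) 0 = true := by decide +kernel
theorem p523 : PrL chk L523 := leafL c523

theorem c524 : lp7 (fun s => chk (ent L524 s)) 0 = true := by decide +kernel
theorem p524 : PrL chk L524 := leafL c524

theorem c525 : lp7 (fun s => chk (ent L525 s)) 0 = true := by decide +kernel
theorem p525 : PrL chk L525 := leafL c525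

theorem c526 : lp7 (fun s => chk (ent L526 s)) 0 = true := by decide +kernel
theorem p526 : PrL chk L526 := leafL c526

theorem c527 : lp7 (fun s => chk (ent L527 s)) 0 = true := by decide +kernel
theorem p527 : PrL chk L527 := leafL c527

theorem c528 : lp7 (fun s => chk (ent L528 s)) 0 = true := by decide +kernel
theorem p528 : PrL chk L528 := leafL c528

theorem c529 : lp7 (fun s => chk (ent L529 s)) 0 = true := by decide +kernel
theorem p529 : PrL chk L529 := leafL c529

theorem c530 : lp7 (fun s => chk (ent L530 s)) 0 = true := by decide +kernel
theorem p530 : PrL chk L530 := leafL c530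

theorem c531 : lp7 (fun s => chk (ent L531 s)) 0 = true := by decide +kernel
theorem p531 : PrL chk L531 := leafL c531

theorem c532 : lp7 (fun s => chk (ent L532 s)) 0 = true := by decide +kernel
theorem p532 : PrL chk L532 := leafL c532

theorem c533 : lp7 (fun s => chk (ent L533 s)) 0 = true := by decide +kernel
theorem p533 : PrL chk L533 := leafL c533

theorem c534 : lp7 (fun s => chk (ent L534 s)) 0 = true := by decide +kernel
theorem p534 : PrL chk L534 := leafL c534

theorem c535 : lp7 (fun s => chk (ent L535 s)) 0 = true := by decide +kernel
theorem p535 : PrL chk L535 := leafL c535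

theorem c536 : lp7 (fun s => chk (ent L536 s)) 0 = true := by decide +kernel
theorem p536 : PrL chk L536 := leafL c536

theorem c537 : lp7 (fun s => chk (ent L537 s)) 0 = true := by decide +kernel
theorem p537 : PrL chk L537 := leafL c537

theorem c538 : lp7 (fun s => chk (ent L538 s)) 0 = true := by decide +kernel
theorem p538 : PrL chk L538 := leafL c538

theorem c539 : lp7 (fun s => chk (ent L539 s)) 0 = true := by decide +kernel
theorem p539 : PrL chk L539 := leafL c539

theorem c540 : lp7 (fun s => chk (ent L540 s)) 0 = true := by decide +kernel
theorem p540 : PrL chk L540 := leafL c540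

theorem c541 : lp7 (fun s => chk (ent L541 s)) 0 = true := by decide +kernel
theorem p541 : PrL chk L541 := leafL c541

theorem c542 : lp7 (fun s => chk (ent L542 s)) 0 = true := by decide +kernel
theorem p542 : PrL chk L542 := leafL c542

theorem c543 : lp7 (fun s => chk (ent L543 s)) 0 = true := by decide +kernel
theorem p543 : PrL chk L543 := leafL c543

theorem c544 : lp7 (fun s => chk (ent L544 s)) 0 = true := by decide +kernel
theorem p544 : PrL chk L544 := leafL c544

theorem c545 : lp7 (fun s => chk (ent L545 s)) 0 = true := by decide +kernel
theorem p545 : PrL chk L545 := leafL c545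

theorem c546 : lp7 (fun s => chk (ent L546 s)) 0 = true := by decide +kernel
theorem p546 : PrL chk L546 := leafL c546

theorem c547 : lp7 (fun s => chk (ent L547 s)) 0 = true := by decide +kernel
theorem p547 : PrL chk L547 := leafL c547

theorem c548 : lp7 (fun s => chk (ent L548 s)) 0 = true := by decide +kernel
theorem p548 : PrL chk L548 := leafL c548

theorem c549 : lp7 (fun s => chk (ent L549 s)) 0 = true := by decide +kernel
theorem p549 : PrL chk L549 := leafL c549

theorem c550 : lp7 (fun s => chk (ent L550 s)) 0 = true := by decide +kernel
theorem p550 : PrL chk L550 := leafL c550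

theorem c551 : lp7 (fun s => chk (ent L551 s)) 0 = true := by decide +kernel
theorem p551 : PrL chk L551 := leafL c551

theorem c552 : lp7 (fun s => chk (ent L552 s)) 0 = true := by decide +kernel
theorem p552 : PrL chk L552 := leafL c552

theorem c553 : lp7 (fun s => chk (ent L553 s)) 0 = true := by decide +kernel
theorem p553 : PrL chk L553 := leafL c553

theorem c554 : lp7 (fun s => chk (ent L554 s)) 0 = true := by decide +kernel
theorem p554 : PrL chk L554 := leafL c554

theorem c555 : lp7 (fun s => chk (ent L555 s)) 0 = true := by decide +kernel
theorem p555 : PrL chk L555 := leafL c555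

theorem c556 : lp7 (fun s => chk (ent L556 s)) 0 = true := by decide +kernel
theorem p556 : PrL chk L556 := leafL c556

theorem c557 : lp7 (fun s => chk (ent L557 s)) 0 = true := by decide +kernel
theorem p557 : PrL chk L557 := leafL c557

theorem c558 : lp7 (fun s => chk (ent L558 s)) 0 = true := by decide +kernel
theorem p558 : PrL chk L558 := leafL c558

theorem c559 : lp7 (fun s => chk (ent L559 s)) 0 = true := by decide +kernel
theorem p559 : PrL chk L559 := leafL c559

theorem c560 : lp7 (fun s => chk (ent L560 s)) 0 = true := by decide +kernel
theorem p560 : PrL chk L560 := leafL c560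

theorem c561 : lp7 (fun s => chk (ent L561 s)) 0 = true := by decide +kernel
theorem p561 : PrL chk L561 := leafL c561

theorem c562 : lp7 (fun s => chk (ent L562 s)) 0 = true := by decide +kernel
theorem p562 : PrL chk L562 := leafL c562

theorem c563 : lp7 (fun s => chk (ent L563 s)) 0 = true := by decide +kernel
theorem p563 : PrL chk L563 := leafL c563

theorem c564 : lp7 (fun s => chk (ent L564 s)) 0 = true := by decide +kernel
theorem p564 : PrL chk L564 := leafL c564

theorem c565 : lp7 (fun s => chk (ent L565 s)) 0 = true := by decide +kernel
theorem p565 : PrL chk L565 := leafL c565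

theorem c566 : lp7 (fun s => chk (ent L566 s)) 0 = true := by decide +kernel
theorem p566 : PrL chk L566 := leafL c566

theorem c567 : lp7 (fun s => chk (ent L567 s)) 0 = true := by decide +kernel
theorem p567 : PrL chk L567 := leafL c567

theorem c568 : lp7 (fun s => chk (ent L568 s)) 0 = true := by decide +kernel
theorem p568 : PrL chk L568 := leafL c568

theorem c569 : lp7 (fun s => chk (ent L569 s)) 0 = true := by decide +kernel
theorem p569 : PrL chk L569 := leafL c569

theorem c570 : lp7 (fun s => chk (ent L570 s)) 0 = true := by decide +kernel
theorem p570 : PrL chk L570 := leafL c570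

theorem c571 : lp7 (fun s => chk (ent L571 s)) 0 = true := by decide +kernel
theorem p571 : PrL chk L571 := leafL c571

theorem c572 : lp7 (fun s => chk (ent L572 s)) 0 = true := by decide +kernel
theorem p572 : PrL chk L572 := leafL c572

theorem c573 : lp7 (fun s => chk (ent L573 s)) 0 = true := by decide +kernel
theorem p573 : PrL chk L573 := leafL c573

theorem c574 : lp7 (fun s => chk (ent L574 s)) 0 = true := by decide +kernel
theorem p574 : PrL chk L574 := leafL c574

theorem c575 : lp7 (fun s => chk (ent L575 s)) 0 = true := by decide +kernel
theorem p575 : PrL chk L575 := leafL c575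

theorem c576 : lp7 (fun s => chk (ent L576 s)) 0 = true := by decide +kernel
theorem p576 : PrL chk L576 := leafL c576

theorem c577 : lp7 (fun s => chk (ent L577 s)) 0 = true := by decide +kernel
theorem p577 : PrL chk L577 := leafL c577

theorem c578 : lp7 (fun s => chk (ent L578 s)) 0 = true := by decide +kernel
theorem p578 : PrL chk L578 := leafL c578

theorem c579 : lp7 (fun s => chk (ent L579 s)) 0 = true := by decide +kernel
theorem p579 : PrL chk L579 := leafL c579

theorem c580 : lp7 (fun s => chk (ent L580 s)) 0 = true := by decide +kernel
theorem p580 : PrL chk L580 := leafL c580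

theorem c581 : lp7 (fun s => chk (ent L581 s)) 0 = true := by decide +kernel
theorem p581 : PrL chk L581 := leafL c581

theorem c582 : lp7 (fun s => chk (ent L582 s)) 0 = true := by decide +kernel
theorem p582 : PrL chk L582 := leafL c582

theorem c583 : lp7 (fun s => chk (ent L583 s)) 0 = true := by decide +kernel
theorem p583 : PrL chk L583 := leafL c583

theorem c584 : lp7 (fun s => chk (ent L584 s)) 0 = true := by decide +kernel
theorem p584 : PrL chk L584 := leafL c584

theorem c585 : lp7 (fun s => chk (ent L585 s)) 0 = true := by decide +kernel
theorem p585 : PrL chk L585 := leafL c585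

theorem c586 : lp7 (fun s => chk (ent L586 s)) 0 = true := by decide +kernel
theorem p586 : PrL chk L586 := leafL c586

theorem c587 : lp7 (fun s => chk (ent L587 s)) 0 = true := by decide +kernel
theorem p587 : PrL chk L587 := leafL c587

theorem c588 : lp7 (fun s => chk (ent L588 s)) 0 = true := by decide +kernel
theorem p588 : PrL chk L588 := leafL c588

theorem c589 : lp7 (fun s => chk (ent L589 s)) 0 = true := by decide +kernel
theorem p589 : PrL chk L589 := leafL c589

theorem c590 : lp7 (fun s => chk (ent L590 s)) 0 = true := by decide +kernel
theorem p590 : PrL chk L590 := leafL c590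

theorem c591 : lp7 (fun s => chk (ent L591 s)) 0 = true := by decide +kernel
theorem p591 : PrL chk L591 := leafL c591

theorem c592 : lp7 (fun s => chk (ent L592 s)) 0 = true := by decide +kernel
theorem p592 : PrL chk L592 := leafL c592

theorem c593 : lp7 (fun s => chk (ent L593 s)) 0 = true := by decide +kernel
theorem p593 : PrL chk L593 := leafL c593

theorem c594 : lp7 (fun s => chk (ent L594 s)) 0 = true := by decide +kernel
theorem p594 : PrL chk L594 := leafL c594

theorem c595 : lp7 (fun s => chk (ent L595 s)) 0 = true := by decide +kernel
theorem p595 : PrL chk L595 := leafL c595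

theorem c596 : lp7 (fun s => chk (ent L596 s)) 0 = true := by decide +kernel
theorem p596 : PrL chk L596 := leafL c596

theorem c597 : lp7 (fun s => chk (ent L597 s)) 0 = true := by decide +kernel
theorem p597 : PrL chk L597 := leafL c597

theorem c598 : lp7 (fun s => chk (ent L598 s)) 0 = true := by decide +kernel
theorem p598 : PrL chk L598 := leafL c598

theorem c599 : lp7 (fun s => chk (ent L599 s)) 0 = true := by decide +kernel
theorem p599 : PrL chk L599 := leafL c599

theorem c600 : lp7 (fun s => chk (ent L600 s)) 0 = true := by decide +kernel
theorem p600 : PrL chk L600 := leafL c600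

theorem c601 : lp7 (fun s => chk (ent L601 s)) 0 = true := by decide +kernel
theorem p601 : PrL chk L601 := leafL c601

theorem c602 : lp7 (fun s => chk (ent L602 s)) 0 = true := by decide +kernel
theorem p602 : PrL chk L602 := leafL c602

theorem c603 : lp7 (fun s => chk (ent L603 s)) 0 = true := by decide +kernel
theorem p603 : PrL chk L603 := leafL c603

theorem c604 : lp7 (fun s => chk (ent L604 s)) 0 = true := by decide +kernel
theorem p604 : PrL chk L604 := leafL c604

theorem c605 : lp7 (fun s => chk (ent L605 s)) 0 = true := by decide +kernel
theorem p605 : PrL chk L605 := leafL c605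

theorem c606 : lp7 (fun s => chk (ent L606 s)) 0 = true := by decide +kernel
theorem p606 : PrL chk L606 := leafL c606

theorem c607 : lp7 (fun s => chk (ent L607 s)) 0 = true := by decide +kernel
theorem p607 : PrL chk L607 := leafL c607

theorem c608 : lp7 (fun s => chk (ent L608 s)) 0 = true := by decide +kernel
theorem p608 : PrL chk L608 := leafL c608

theorem c609 : lp7 (fun s => chk (ent L609 s)) 0 = true := by decide +kernel
theorem p609 : PrL chk L609 := leafL c609

theorem c610 : lp7 (fun s => chk (ent L610 s)) 0 = true := by decide +kernel
theorem p610 : PrL chk L610 := leafL c610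

theorem c611 : lp7 (fun s => chk (ent L611 s)) 0 = true := by decide +kernel
theorem p611 : PrL chk L611 := leafL c611

theorem c612 : lp7 (fun s => chk (ent L612 s)) 0 = true := by decide +kernel
theorem p612 : PrL chk L612 := leafL c612

theorem c613 : lp7 (fun s => chk (ent L613 s)) 0 = true := by decide +kernel
theorem p613 : PrL chk L613 := leafL c613

theorem c614 : lp7 (fun s => chk (ent L614 s)) 0 = true := by decide +kernel
theorem p614 : PrL chk L614 := leafL c614

theorem c615 : lp7 (fun s => chk (ent L615 s)) 0 = true := by decide +kernel
theorem p615 : PrL chk L615 := leafL c615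

theorem c616 : lp7 (fun s => chk (ent L616 s)) 0 = true := by decide +kernel
theorem p616 : PrL chk L616 := leafL c616

theorem c617 : lp7 (fun s => chk (ent L617 s)) 0 = true := by decide +kernel
theorem p617 : PrL chk L617 := leafL c617

theorem c618 : lp7 (fun s => chk (ent L618 s)) 0 = true := by decide +kernel
theorem p618 : PrL chk L618 := leafL c618

theorem c619 : lp7 (fun s => chk (ent L619 s)) 0 = true := by decide +kernel
theorem p619 : PrL chk L619 := leafL c619

theorem c620 : lp7 (fun s => chk (ent L620 s)) 0 = true := by decide +kernel
theorem p620 : PrL chk L620 := leafL c620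

theorem c621 : lp7 (fun s => chk (ent L621 s)) 0 = true := by decide +kernel
theorem p621 : PrL chk L621 := leafL c621

theorem c622 : lp7 (fun s => chk (ent L622 s)) 0 = true := by decide +kernel
theorem p622 : PrL chk L622 := leafL c622

theorem c623 : lp7 (fun s => chk (ent L623 s)) 0 = true := by decide +kernel
theorem p623 : PrL chk L623 := leafL c623

theorem c624 : lp7 (fun s => chk (ent L624 s)) 0 = true := by decide +kernel
theorem p624 : PrL chk L624 := leafL c624

theorem c625 : lp7 (fun s => chk (ent L625 s)) 0 = true := by decide +kernel
theorem p625 : PrL chk L625 := leafL c625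

theorem c626 : lp7 (fun s => chk (ent L626 s)) 0 = true := by decide +kernel
theorem p626 : PrL chk L626 := leafL c626

theorem c627 : lp7 (fun s => chk (ent L627 s)) 0 = true := by decide +kernel
theorem p627 : PrL chk L627 := leafL c627

theorem c628 : lp7 (fun s => chk (ent L628 s)) 0 = true := by decide +kernel
theorem p628 : PrL chk L628 := leafL c628

theorem c629 : lp7 (fun s => chk (ent L629 s)) 0 = true := by decide +kernel
theorem p629 : PrL chk L629 := leafL c629

theorem c630 : lp7 (fun s => chk (ent L630 s)) 0 = true := by decide +kernel
theorem p630 : PrL chk L630 := leafL c630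

theorem c631 : lp7 (fun s => chk (ent L631 s)) 0 = true := by decide +kernel
theorem p631 : PrL chk L631 := leafL c631

theorem c632 : lp7 (fun s => chk (ent L632 s)) 0 = true := by decide +kernel
theorem p632 : PrL chk L632 := leafL c632

theorem c633 : lp7 (fun s => chk (ent L633 s)) 0 = true := by decide +kernel
theorem p633 : PrL chk L633 := leafL c633

theorem c634 : lp7 (fun s => chk (ent L634 s)) 0 = true := by decide +kernel
theorem p634 : PrL chk L634 := leafL c634

theorem c635 : lp7 (fun s => chk (ent L635 s)) 0 = true := by decide +kernel
theorem p635 : PrL chk L635 := leafL c635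

theorem c636 : lp7 (fun s => chk (ent L636 s)) 0 = true := by decide +kernel
theorem p636 : PrL chk L636 := leafL c636

theorem c637 : lp7 (fun s => chk (ent L637 s)) 0 = true := by decide +kernel
theorem p637 : PrL chk L637 := leafL c637

theorem c638 : lp7 (fun s => chk (ent L638 s)) 0 = true := by decide +kernel
theorem p638 : PrL chk L638 := leafL c638

theorem c639 : lp7 (fun s => chk (ent L639 s)) 0 = true := by decide +kernel
theorem p639 : PrL chk L639 := leafL c639

theorem c640 : lp7 (fun s => chk (ent L640 s)) 0 = true := by decide +kernel
theorem p640 : PrL chk L640 := leafL c640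

theorem c641 : lp7 (fun s => chk (ent L641 s)) 0 = true := by decide +kernel
theorem p641 : PrL chk L641 := leafL c641

theorem c642 : lp7 (fun s => chk (ent L642 s)) 0 = true := by decide +kernel
theorem p642 : PrL chk L642 := leafL c642

theorem c643 : lp7 (fun s => chk (ent L643 s)) 0 = true := by decide +kernel
theorem p643 : PrL chk L643 := leafL c643

theorem c644 : lp7 (fun s => chk (ent L644 s)) 0 = true := by decide +kernel
theorem p644 : PrL chk L644 := leafL c644

theorem c645 : lp7 (fun s => chk (ent L645 s)) 0 = true := by decide +kernel
theorem p645 : PrL chk L645 := leafL c645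

theorem c646 : lp7 (fun s => chk (ent L646 s)) 0 = true := by decide +kernel
theorem p646 : PrL chk L646 := leafL c646

theorem c647 : lp7 (fun s => chk (ent L647 s)) 0 = true := by decide +kernel
theorem p647 : PrL chk L647 := leafL c647

theorem c648 : lp7 (fun s => chk (ent L648 s)) 0 = true := by decide +kernel
theorem p648 : PrL chk L648 := leafL c648

theorem c649 : lp7 (fun s => chk (ent L649 s)) 0 = true := by decide +kernel
theorem p649 : PrL chk L649 := leafL c649

theorem c650 : lp7 (fun s => chk (ent L650 s)) 0 = true := by decide +kernel
theorem p650 : PrL chk L650 := leafL c650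

theorem c651 : lp7 (fun s => chk (ent L651 s)) 0 = true := by decide +kernel
theorem p651 : PrL chk L651 := leafL c651

theorem c652 : lp7 (fun s => chk (ent L652 s)) 0 = true := by decide +kernel
theorem p652 : PrL chk L652 := leafL c652

theorem c653 : lp7 (fun s => chk (ent L653 s)) 0 = true := by decide +kernel
theorem p653 : PrL chk L653 := leafL c653

theorem c654 : lp7 (fun s => chk (ent L654 s)) 0 = true := by decide +kernel
theorem p654 : PrL chk L654 := leafL c654

theorem c655 : lp7 (fun s => chk (ent L655 s)) 0 = true := by decide +kernel
theorem p655 : PrL chk L655 := leafL c655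

theorem c656 : lp7 (fun s => chk (ent L656 s)) 0 = true := by decide +kernel
theorem p656 : PrL chk L656 := leafL c656

theorem c657 : lp7 (fun s => chk (ent L657 s)) 0 = true := by decide +kernel
theorem p657 : PrL chk L657 := leafL c657

theorem c658 : lp7 (fun s => chk (ent L658 s)) 0 = true := by decide +kernel
theorem p658 : PrL chk L658 := leafL c658

theorem c659 : lp7 (fun s => chk (ent L659 s)) 0 = true := by decide +kernel
theorem p659 : PrL chk L659 := leafL c659

theorem c660 : lp7 (fun s => chk (ent L660 s)) 0 = true := by decide +kernel
theorem p660 : PrL chk L660 := leafL c660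

theorem c661 : lp7 (fun s => chk (ent L661 s)) 0 = true := by decide +kernel
theorem p661 : PrL chk L661 := leafL c661

theorem c662 : lp7 (fun s => chk (ent L662 s)) 0 = true := by decide +kernel
theorem p662 : PrL chk L662 := leafL c662

theorem c663 : lp7 (fun s => chk (ent L663 s)) 0 = true := by decide +kernel
theorem p663 : PrL chk L663 := leafL c663

theorem c664 : lp7 (fun s => chk (ent L664 s)) 0 = true := by decide +kernel
theorem p664 : PrL chk L664 := leafL c664

theorem c665 : lp7 (fun s => chk (ent L665 s)) 0 = true := by decide +kernel
theorem p665 : PrL chk L665 := leafL c665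

theorem c666 : lp7 (fun s => chk (ent L666 s)) 0 = true := by decide +kernel
theorem p666 : PrL chk L666 := leafL c666

theorem c667 : lp7 (fun s => chk (ent L667 s)) 0 = true := by decide +kernel
theorem p667 : PrL chk L667 := leafL c667

theorem c668 : lp7 (fun s => chk (ent L668 s)) 0 = true := by decide +kernel
theorem p668 : PrL chk L668 := leafL c668

theorem c669 : lp7 (fun s => chk (ent L669 s)) 0 = true := by decide +kernel
theorem p669 : PrL chk L669 := leafL c669

theorem c670 : lp7 (fun s => chk (ent L670 s)) 0 = true := by decide +kernel
theorem p670 : PrL chk L670 := leafL c670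

theorem c671 : lp7 (fun s => chk (ent L671 s)) 0 = true := by decide +kernel
theorem p671 : PrL chk L671 := leafL c671

theorem c672 : lp7 (fun s => chk (ent L672 s)) 0 = true := by decide +kernel
theorem p672 : PrL chk L672 := leafL c672

theorem c673 : lp7 (fun s => chk (ent L673 s)) 0 = true := by decide +kernel
theorem p673 : PrL chk L673 := leafL c673

theorem c674 : lp7 (fun s => chk (ent L674 s)) 0 = true := by decide +kernel
theorem p674 : PrL chk L674 := leafL c674

theorem c675 : lp7 (fun s => chk (ent L675 s)) 0 = true := by decide +kernel
theorem p675 : PrL chk L675 := leafL c675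

theorem c676 : lp7 (fun s => chk (ent L676 s)) 0 = true := by decide +kernel
theorem p676 : PrL chk L676 := leafL c676

theorem c677 : lp7 (fun s => chk (ent L677 s)) 0 = true := by decide +kernel
theorem p677 : PrL chk L677 := leafL c677

theorem c678 : lp7 (fun s => chk (ent L678 s)) 0 = true := by decide +kernel
theorem p678 : PrL chk L678 := leafL c678

theorem c679 : lp7 (fun s => chk (ent L679 s)) 0 = true := by decide +kernel
theorem p679 : PrL chk L679 := leafL c679

theorem c680 : lp7 (fun s => chk (ent L680 s)) 0 = true := by decide +kernel
theorem p680 : PrL chk L680 := leafL c680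

theorem c681 : lp7 (fun s => chk (ent L681 s)) 0 = true := by decide +kernel
theorem p681 : PrL chk L681 := leafL c681

theorem c682 : lp7 (fun s => chk (ent L682 s)) 0 = true := by decide +kernel
theorem p682 : PrL chk L682 := leafL c682

theorem c683 : lp7 (fun s => chk (ent L683 s)) 0 = true := by decide +kernel
theorem p683 : PrL chk L683 := leafL c683

theorem c684 : lp7 (fun s => chk (ent L684 s)) 0 = true := by decide +kernel
theorem p684 : PrL chk L684 := leafL c684

theorem c685 : lp7 (fun s => chk (ent L685 s)) 0 = true := by decide +kernel
theorem p685 : PrL chk L685 := leafL c685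

theorem c686 : lp7 (fun s => chk (ent L686 s)) 0 = true := by decide +kernel
theorem p686 : PrL chk L686 := leafL c686

theorem c687 : lp7 (fun s => chk (ent L687 s)) 0 = true := by decide +kernel
theorem p687 : PrL chk L687 := leafL c687

theorem c688 : lp7 (fun s => chk (ent L688 s)) 0 = true := by decide +kernel
theorem p688 : PrL chk L688 := leafL c688

theorem c689 : lp7 (fun s => chk (ent L689 s)) 0 = true := by decide +kernel
theorem p689 : PrL chk L689 := leafL c689

theorem c690 : lp7 (fun s => chk (ent L690 s)) 0 = true := by decide +kernel
theorem p690 : PrL chk L690 := leafL c690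

theorem c691 : lp7 (fun s => chk (ent L691 s)) 0 = true := by decide +kernel
theorem p691 : PrL chk L691 := leafL c691

theorem c692 : lp7 (fun s => chk (ent L692 s)) 0 = true := by decide +kernel
theorem p692 : PrL chk L692 := leafL c692

theorem c693 : lp7 (fun s => chk (ent L693 s)) 0 = true := by decide +kernel
theorem p693 : PrL chk L693 := leafL c693

theorem c694 : lp7 (fun s => chk (ent L694 s)) 0 = true := by decide +kernel
theorem p694 : PrL chk L694 := leafL c694

theorem c695 : lp7 (fun s => chk (ent L695 s)) 0 = true := by decide +kernel
theorem p695 : PrL chk L695 := leafL c695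

theorem c696 : lp7 (fun s => chk (ent L696 s)) 0 = true := by decide +kernel
theorem p696 : PrL chk L696 := leafL c696

theorem c697 : lp7 (fun s => chk (ent L697 s)) 0 = true := by decide +kernel
theorem p697 : PrL chk L697 := leafL c697

theorem c698 : lp7 (fun s => chk (ent L698 s)) 0 = true := by decide +kernel
theorem p698 : PrL chk L698 := leafL c698

theorem c699 : lp7 (fun s => chk (ent L699 s)) 0 = true := by decide +kernel
theorem p699 : PrL chk L699 := leafL c699

theorem c700 : lp7 (fun s => chk (ent L700 s)) 0 = true := by decide +kernel
theorem p700 : PrL chk L700 := leafL c700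

theorem c701 : lp7 (fun s => chk (ent L701 s)) 0 = true := by decide +kernel
theorem p701 : PrL chk L701 := leafL c701

theorem c702 : lp7 (fun s => chk (ent L702 s)) 0 = true := by decide +kernel
theorem p702 : PrL chk L702 := leafL c702

theorem c703 : lp7 (fun s => chk (ent L703 s)) 0 = true := by decide +kernel
theorem p703 : PrL chk L703 := leafL c703

theorem c704 : lp7 (fun s => chk (ent L704 s)) 0 = true := by decide +kernel
theorem p704 : PrL chk L704 := leafL c704

theorem c705 : lp7 (fun s => chk (ent L705 s)) 0 = true := by decide +kernel
theorem p705 : PrL chk L705 := leafL c705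

theorem c706 : lp7 (fun s => chk (ent L706 s)) 0 = true := by decide +kernel
theorem p706 : PrL chk L706 := leafL c706

theorem c707 : lp7 (fun s => chk (ent L707 s)) 0 = true := by decide +kernel
theorem p707 : PrL chk L707 := leafL c707

theorem c708 : lp7 (fun s => chk (ent L708 s)) 0 = true := by decide +kernel
theorem p708 : PrL chk L708 := leafL c708

theorem c709 : lp7 (fun s => chk (ent L709 s)) 0 = true := by decide +kernel
theorem p709 : PrL chk L709 := leafL c709

theorem c710 : lp7 (fun s => chk (ent L710 s)) 0 = true := by decide +kernel
theorem p710 : PrL chk L710 := leafL c710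

theorem c711 : lp7 (fun s => chk (ent L711 s)) 0 = true := by decide +kernel
theorem p711 : PrL chk L711 := leafL c711

theorem c712 : lp7 (fun s => chk (ent L712 s)) 0 = true := by decide +kernel
theorem p712 : PrL chk L712 := leafL c712

theorem c713 : lp7 (fun s => chk (ent L713 s)) 0 = true := by decide +kernel
theorem p713 : PrL chk L713 := leafL c713

theorem c714 : lp7 (fun s => chk (ent L714 s)) 0 = true := by decide +kernel
theorem p714 : PrL chk L714 := leafL c714

theorem c715 : lp7 (fun s => chk (ent L715 s)) 0 = true := by decide +kernel
theorem p715 : PrL chk L715 := leafL c715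

theorem c716 : lp7 (fun s => chk (ent L716 s)) 0 = true := by decide +kernel
theorem p716 : PrL chk L716 := leafL c716

theorem c717 : lp7 (fun s => chk (ent L717 s)) 0 = true := by decide +kernel
theorem p717 : PrL chk L717 := leafL c717

theorem c718 : lp7 (fun s => chk (ent L718 s)) 0 = true := by decide +kernel
theorem p718 : PrL chk L718 := leafL c718

theorem c719 : lp7 (fun s => chk (ent L719 s)) 0 = true := by decide +kernel
theorem p719 : PrL chk L719 := leafL c719

theorem c720 : lp7 (fun s => chk (ent L720 s)) 0 = true := by decide +kernel
theorem p720 : PrL chk L720 := leafL c720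

theorem c721 : lp7 (fun s => chk (ent L721 s)) 0 = true := by decide +kernel
theorem p721 : PrL chk L721 := leafL c721

theorem c722 : lp7 (fun s => chk (ent L722 s)) 0 = true := by decide +kernel
theorem p722 : PrL chk L722 := leafL c722

theorem c723 : lp7 (fun s => chk (ent L723 s)) 0 = true := by decide +kernel
theorem p723 : PrL chk L723 := leafL c723

theorem c724 : lp7 (fun s => chk (ent L724 s)) 0 = true := by decide +kernel
theorem p724 : PrL chk L724 := leafL c724

theorem c725 : lp7 (fun s => chk (ent L725 s)) 0 = true := by decide +kernel
theorem p725 : PrL chk L725 := leafL c725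

theorem c726 : lp7 (fun s => chk (ent L726 s)) 0 = true := by decide +kernel
theorem p726 : PrL chk L726 := leafL c726

theorem c727 : lp7 (fun s => chk (ent L727 s)) 0 = true := by decide +kernel
theorem p727 : PrL chk L727 := leafL c727

theorem c728 : lp7 (fun s => chk (ent L728 s)) 0 = true := by decide +kernel
theorem p728 : PrL chk L728 := leafL c728

theorem c729 : lp7 (fun s => chk (ent L729 s)) 0 = true := by decide +kernel
theorem p729 : PrL chk L729 := leafL c729

theorem c730 : lp7 (fun s => chk (ent L730 s)) 0 = true := by decide +kernel
theorem p730 : PrL chk L730 := leafL c730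

theorem c731 : lp7 (fun s => chk (ent L731 s)) 0 = true := by decide +kernel
theorem p731 : PrL chk L731 := leafL c731

theorem c732 : lp7 (fun s => chk (ent L732 s)) 0 = true := by decide +kernel
theorem p732 : PrL chk L732 := leafL c732

theorem c733 : lp7 (fun s => chk (ent L733 s)) 0 = true := by decide +kernel
theorem p733 : PrL chk L733 := leafL c733

theorem c734 : lp7 (fun s => chk (ent L734 s)) 0 = true := by decide +kernel
theorem p734 : PrL chk L734 := leafL c734

theorem c735 : lp7 (fun s => chk (ent L735 s)) 0 = true := by decide +kernel
theorem p735 : PrL chk L735 := leafL c735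

theorem c736 : lp7 (fun s => chk (ent L736 s)) 0 = true := by decide +kernel
theorem p736 : PrL chk L736 := leafL c736

theorem c737 : lp7 (fun s => chk (ent L737 s)) 0 = true := by decide +kernel
theorem p737 : PrL chk L737 := leafL c737

theorem c738 : lp7 (fun s => chk (ent L738 s)) 0 = true := by decide +kernel
theorem p738 : PrL chk L738 := leafL c738

theorem c739 : lp7 (fun s => chk (ent L739 s)) 0 = true := by decide +kernel
theorem p739 : PrL chk L739 := leafL c739

theorem c740 : lp7 (fun s => chk (ent L740 s)) 0 = true := by decide +kernel
theorem p740 : PrL chk L740 := leafL c740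

theorem c741 : lp7 (fun s => chk (ent L741 s)) 0 = true := by decide +kernel
theorem p741 : PrL chk L741 := leafL c741

theorem c742 : lp7 (fun s => chk (ent L742 s)) 0 = true := by decide +kernel
theorem p742 : PrL chk L742 := leafL c742

theorem c743 : lp7 (fun s => chk (ent L743 s)) 0 = true := by decide +kernel
theorem p743 : PrL chk L743 := leafL c743

theorem c744 : lp7 (fun s => chk (ent L744 s)) 0 = true := by decide +kernel
theorem p744 : PrL chk L744 := leafL c744

theorem c745 : lp7 (fun s => chk (ent L745 s)) 0 = true := by decide +kernel
theorem p745 : PrL chk L745 := leafL c745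

theorem c746 : lp7 (fun s => chk (ent L746 s)) 0 = true := by decide +kernel
theorem p746 : PrL chk L746 := leafL c746

theorem c747 : lp7 (fun s => chk (ent L747 s)) 0 = true := by decide +kernel
theorem p747 : PrL chk L747 := leafL c747

theorem c748 : lp7 (fun s => chk (ent L748 s)) 0 = true := by decide +kernel
theorem p748 : PrL chk L748 := leafL c748

theorem c749 : lp7 (fun s => chk (ent L749 s)) 0 = true := by decide +kernel
theorem p749 : PrL chk L749 := leafL c749

theorem c750 : lp7 (fun s => chk (ent L750 s)) 0 = true := by decide +kernel
theorem p750 : PrL chk L750 := leafL c750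

theorem c751 : lp7 (fun s => chk (ent L751 s)) 0 = true := by decide +kernel
theorem p751 : PrL chk L751 := leafL c751

theorem c752 : lp7 (fun s => chk (ent L752 s)) 0 = true := by decide +kernel
theorem p752 : PrL chk L752 := leafL c752

theorem c753 : lp7 (fun s => chk (ent L753 s)) 0 = true := by decide +kernel
theorem p753 : PrL chk L753 := leafL c753

theorem c754 : lp7 (fun s => chk (ent L754 s)) 0 = true := by decide +kernel
theorem p754 : PrL chk L754 := leafL c754

theorem c755 : lp7 (fun s => chk (ent L755 s)) 0 = true := by decide +kernel
theorem p755 : PrL chk L755 := leafL c755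

theorem c756 : lp7 (fun s => chk (ent L756 s)) 0 = true := by decide +kernel
theorem p756 : PrL chk L756 := leafL c756

theorem c757 : lp7 (fun s => chk (ent L757 s)) 0 = true := by decide +kernel
theorem p757 : PrL chk L757 := leafL c757

theorem c758 : lp7 (fun s => chk (ent L758 s)) 0 = true := by decide +kernel
theorem p758 : PrL chk L758 := leafL c758

theorem c759 : lp7 (fun s => chk (ent L759 s)) 0 = true := by decide +kernel
theorem p759 : PrL chk L759 := leafL c759

theorem c760 : lp7 (fun s => chk (ent L760 s)) 0 = true := by decide +kernel
theorem p760 : PrL chk L760 := leafL c760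

end Pool.Agent.ad013a.R2
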